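import Pool.Agent.helper99.PLR.Spec

/-!
# Project plr (MP_d9e35a_co), row plr:STS (a quadratic form on the subsets of `S`)
-/

set_option autoImplicit false

open scoped Classical

namespace Pool.Agent.PLR

open Finset

noncomputable section

theorem STS_erase {d : ℕ} (S : Finset (Fin d)) (g : Finset (Fin d) → ℝ) (hg : ∀ w, 0 ≤ g w) :
    ∑ w ∈ S.powerset, ∑ j ∈ w, g (w.erase j) ≤ S.card * ∑ w ∈ S.powerset, g w := by
  have h1 : ∑ w ∈ S.powerset, ∑ j ∈ w, g (w.erase j) =
      ∑ j ∈ S, ∑ w ∈ S.powerset.filter (fun w => j ∈ w), g (w.erase j) := by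
    apply Finset.sum_comm'
    intro w j
    simp only [mem_powerset, mem_filter]
    constructor
    · rintro ⟨h1, h2⟩
      exact ⟨⟨h1, h2⟩, h1 h2⟩
    · rintro ⟨⟨h1, h2⟩, -⟩
      exact ⟨h1, h2⟩
  rw [h1]
  calc ∑ j ∈ S, ∑ w ∈ S.powerset.filter (fun w => j ∈ w), g (w.erase j)
      ≤ ∑ _j ∈ S, ∑ w ∈ S.powerset, g w := by
        apply Finset.sum_le_sum
        intro j _
        have hinj : Set.InjOn (fun w : Finset (Fin d) => w.erase j)
            (S.powerset.filter (fun w => j ∈ w) : Finset (Finset (Fin d))) := by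
          intro a ha b hb hab
          simp only [coe_filter, mem_powerset, Set.mem_ofPred_eq] at ha hb
          have hab' : a.erase j = b.erase j := hab
          rw [← Finset.insert_erase ha.2, hab', Finset.insert_erase hb.2]
        rw [← Finset.sum_image (f := g) hinj]
        apply Finset.sum_le_sum_of_subset_of_nonneg
        · intro w hw
          rw [mem_image] at hw
          obtain ⟨v, hv, rfl⟩ := hw
          rw [mem_filter, mem_powerset] at hv
          rw [mem_powerset]
          exact (Finset.erase_subset j v).trans hv.1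
        · intro w _ _
          exact hg w
    _ = S.card * ∑ w ∈ S.powerset, g w := by
        rw [Finset.sum_const, nsmul_eq_mul]

theorem STS_choose (n : ℕ) (h : 2 ≤ n) : n ≤ 2 * n.choose 2 := by
  obtain ⟨m, rfl⟩ : ∃ m, n = m + 2 := ⟨n - 2, by omega⟩
  have h1 := Nat.triangle_succ (m + 1)
  rw [Nat.choose_two_right]
  have h2 : (m + 2) * (m + 2 - 1) = (m + 2) * (m + 1) := rfl
  rw [h2]
  have h3 : 2 * ((m + 2) * (m + 1) / 2) = (m + 2) * (m + 1) := by
    apply Nat.mul_div_cancel'
    have := Nat.even_mul_succ_self (m + 1)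
    rw [mul_comm]
    exact this.two_dvd
  rw [h3]
  nlinarith

theorem STS : STS_stmt := by
  intro d S n hn
  set M := ∑ w ∈ S.powerset, n w ^ 2 with hM
  set P1 := S.powerset.filter (fun w => w.card < 2) with hP1
  set P2 := S.powerset.filter (fun w => ¬ w.card < 2) with hP2
  have hsplit : ∑ w ∈ S.powerset, ∑ j ∈ w, n w * n (w.erase j) =
      ∑ w ∈ P1, ∑ j ∈ w, n w * n (w.erase j) + ∑ w ∈ P2, ∑ j ∈ w, n w * n (w.erase j) :=
    (Finset.sum_filter_add_sum_filter_not _ _ _).symm
  have hs0 : (0 : ℝ) ≤ √S.card := Real.sqrt_nonneg _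
  -- first part
  have h1 : 2 * ∑ w ∈ P1, ∑ j ∈ w, n w * n (w.erase j) ≤ √S.card * M := by
    have hterm : ∑ w ∈ P1, ∑ j ∈ w, n w * n (w.erase j) = ∑ j ∈ S, n {j} * n ∅ := by
      have hset : P1 = insert ∅ (S.image fun j => ({j} : Finset (Fin d))) := by
        ext w
        rw [hP1, mem_filter, mem_powerset, mem_insert, mem_image]
        constructor
        · rintro ⟨hw, hc⟩
          rcases Nat.lt_or_ge w.card 1 with h | h
          · left
            exact Finset.card_eq_zero.1 (by omega)
          · right
            obtain ⟨j, hj⟩ := Finset.card_eq_one.1 (show w.card = 1 by omega)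
            refine ⟨j, ?_, hj.symm⟩
            apply hw
            rw [hj]
            exact Finset.mem_singleton_self j
        · rintro (rfl | ⟨j, hj, rfl⟩)
          · exact ⟨Finset.empty_subset _, by simp⟩
          · exact ⟨Finset.singleton_subset_iff.2 hj, by simp⟩
      rw [hset, Finset.sum_insert, Finset.sum_image, Finset.sum_empty, zero_add]
      · apply Finset.sum_congr rfl
        intro j _
        rw [Finset.sum_singleton, Finset.erase_singleton]
      · intro a _ b _ hab
        exact Finset.singleton_injective hab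
      · intro h
        rw [mem_image] at h
        obtain ⟨j, _, hj⟩ := h
        exact Finset.singleton_ne_empty j hj
    rw [hterm, Finset.mul_sum]
    rcases S.eq_empty_or_nonempty with hS | hS
    · rw [hS]
      simp only [sum_empty]
      exact mul_nonneg (Real.sqrt_nonneg _) (Finset.sum_nonneg fun w _ => sq_nonneg _)
    · have hc : (0 : ℝ) < S.card := by exact_mod_cast hS.card_pos
      have hsq : (0 : ℝ) < √S.card := Real.sqrt_pos.2 hc
      have hss : √(S.card : ℝ) * √(S.card : ℝ) = S.card := Real.mul_self_sqrt hc.le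
      have h2 : ∀ j ∈ S, 2 * (n {j} * n ∅) ≤ √S.card * n {j} ^ 2 + n ∅ ^ 2 / √S.card := by
        intro j _
        have h3 : √(S.card : ℝ) * (√S.card * n {j} ^ 2 + n ∅ ^ 2 / √S.card - 2 * (n {j} * n ∅)) =
            (√S.card * n {j} - n ∅) ^ 2 := by
          field_simp
          ring
        have h4 : 0 ≤ √S.card * n {j} ^ 2 + n ∅ ^ 2 / √S.card - 2 * (n {j} * n ∅) := by
          apply nonneg_of_mul_nonneg_right _ hsq
          rw [h3]
          positivity
        linarith
      refine (Finset.sum_le_sum h2).trans ?_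
      rw [Finset.sum_add_distrib, Finset.sum_const, nsmul_eq_mul, ← Finset.mul_sum]
      have h5 : (S.card : ℝ) * (n ∅ ^ 2 / √S.card) = √S.card * n ∅ ^ 2 := by
        calc (S.card : ℝ) * (n ∅ ^ 2 / √S.card) = (√(S.card : ℝ) * √(S.card : ℝ)) * (n ∅ ^ 2 / √S.card) := by
              rw [hss]
          _ = √S.card * n ∅ ^ 2 := by
              field_simp
      rw [h5, ← mul_add]
      apply mul_le_mul_of_nonneg_left _ hs0
      have h6 : ∑ j ∈ S, n {j} ^ 2 + n ∅ ^ 2 =
          ∑ w ∈ insert ∅ (S.image fun j => ({j} : Finset (Fin d))), n w ^ 2 := by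
        rw [Finset.sum_insert, Finset.sum_image, add_comm]
        · intro a _ b _ hab
          exact Finset.singleton_injective hab
        · intro h
          rw [mem_image] at h
          obtain ⟨j, _, hj⟩ := h
          exact Finset.singleton_ne_empty j hj
      rw [h6, hM]
      apply Finset.sum_le_sum_of_subset_of_nonneg
      · intro w hw
        rw [mem_insert, mem_image] at hw
        rw [mem_powerset]
        rcases hw with rfl | ⟨j, hj, rfl⟩
        · exact Finset.empty_subset _
        · exact Finset.singleton_subset_iff.2 hj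
      · intro w _ _
        positivity
  -- second part
  have h2 : ∑ w ∈ P2, ∑ j ∈ w, n w * n (w.erase j) ≤
      √(2 * ∑ w ∈ S.powerset, (w.card.choose 2 : ℝ) * n w ^ 2) * √(S.card * M) := by
    have hcs := Real.sum_mul_le_sqrt_mul_sqrt (P2.sigma fun w => w)
      (fun p => n p.1) (fun p => n (p.1.erase p.2))
    rw [Finset.sum_sigma, Finset.sum_sigma, Finset.sum_sigma] at hcs
    refine hcs.trans ?_
    apply mul_le_mul _ _ (Real.sqrt_nonneg _) (Real.sqrt_nonneg _)
    · apply Real.sqrt_le_sqrt
      rw [Finset.mul_sum]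
      calc ∑ w ∈ P2, ∑ _j ∈ w, n w ^ 2 ≤ ∑ w ∈ P2, 2 * ((w.card.choose 2 : ℝ) * n w ^ 2) := by
            apply Finset.sum_le_sum
            intro w hw
            rw [hP2, mem_filter] at hw
            rw [Finset.sum_const, nsmul_eq_mul]
            have h3 : (w.card : ℝ) ≤ 2 * (w.card.choose 2 : ℝ) := by
              exact_mod_cast STS_choose w.card (by omega)
            nlinarith [sq_nonneg (n w)]
        _ ≤ _ := by
            apply Finset.sum_le_sum_of_subset_of_nonneg (Finset.filter_subset _ _)
            intro w _ _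
            positivity
    · apply Real.sqrt_le_sqrt
      calc ∑ w ∈ P2, ∑ j ∈ w, n (w.erase j) ^ 2 ≤ ∑ w ∈ S.powerset, ∑ j ∈ w, n (w.erase j) ^ 2 := by
            apply Finset.sum_le_sum_of_subset_of_nonneg (Finset.filter_subset _ _)
            intro w _ _
            positivity
        _ ≤ _ := STS_erase S (fun w => n w ^ 2) (fun w => sq_nonneg _)
  rw [hsplit, mul_add]
  have h3 := mul_le_mul_of_nonneg_left h2 (show (0 : ℝ) ≤ 2 by norm_num)
  linarith

end

end Pool.Agent.PLR
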